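import Pool.Agent.Results.MP_28f2cb_lc.CubicEquations
import Pool.Agent.J4H62.AV.Fin

/-!
# The integers are not defined by abelian varieties and equations of low degree

The hand-in `CubicEquations` shows that the integers are not obtained as the values of rational
functions at the rational points of products of *blocks*: cubic hypersurfaces, intersections of two
quadrics and certain hypersurfaces of bidegree `(2, 2)`.  We add a new kind of block, in which the
degrees of the equations and the dimension are arbitrary: the group of the `K`-rational points of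
an abelian variety over a number field `K`, and every coset of every subgroup of it.

We only use the following properties of an abelian variety `A` in a projective space, with a point
`o`.  Let `D` be the set of the nonzero vectors with coordinates in `K` which represent the points
of a coset of a subgroup of `A(K)`.  The morphism `(x, y, z) ↦ x - y + z` from `A × A × A` to `A`
is given by finitely many systems of polynomials with coefficients in `K`, homogeneous in each of
`x`, `y`, `z`, such that at every point with coordinates in an extension `L` of `K`, one of the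
systems is different from zero.  See `GroupCone` for the definition (the group need not be
commutative, and we require the last property only at the points which are limits of points of
`D`).  By the theorem of Faltings, the set of the `K`-rational points of an arbitrary closed
subvariety of an abelian variety is a finite union of cosets of subgroups, and such finite unions
are allowed here.

The result is the same as for the blocks of `CubicEquations`: let `K` be a number field and let `L`
be its completion at a place.  Take the values of arbitrary rational functions at the points with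
coordinates in `K` of a product of blocks of the old kinds and of the new kind, restricted to an
arbitrary open subset of the `L`-valued points, and take finite unions of such sets.  A set of this
kind has only finitely many points which are isolated in it for the topology of `L`.  In
particular, a set of integers of this kind is finite.

The main ingredient is the theorem `Pool.Agent.J4H62.AV.FA_of_data`: the ideals of the local
Zariski closures (in `L`-adic neighbourhoods of points with coordinates in `L`) of the cone over a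
coset take only finitely many values.
-/

set_option autoImplicit false

namespace Pool.Agent.Results.MP_28f2cb_lc.AbelianVarieties

open MvPolynomial

/-- The triple `(x, y, z)`, which is substituted for three groups of `N` variables. -/
def triple {R : Type} {N : ℕ} (x y z : Fin N → R) : Fin 3 × Fin N → R :=
  fun s => ![x, y, z] s.1 s.2

/-- The set `D` consists of the nonzero vectors representing the points of a subset `P` of a
projective space over `K`, the set `P` is embedded in a group `G`, and there are finitely many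
systems `F j` of polynomials, homogeneous in each of `x`, `y`, `z` (that is,
`F j (a x, b y, c z) = a ^ d₀ b ^ d₁ c ^ d₂ F j (x, y, z)`), such that

* for all `x`, `y`, `z` in `D`, if `F j (x, y, z)` is different from zero, then it is in `D` and
  represents the element `x y⁻¹ z` of `G`,
* for all nonzero vectors `x`, `y`, `z` with coordinates in `L` which are limits of vectors in `D`,
  there is a `j` such that `F j (x, y, z)` is different from zero.

So `P` is a coset of a subgroup of `G`. -/
def GroupCone {K L : Type} [Field K] [NontriviallyNormedField L] (σ : K →+* L) {N : ℕ}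
    (D : Set (Fin N → K)) : Prop :=
  (∀ x ∈ D, x ≠ 0 ∧ ∀ c : K, c ≠ 0 → c • x ∈ D) ∧
  ∃ (G : Type) (_ : Group G) (φ : (Fin N → K) → G) (m : ℕ)
    (F : Fin m → Fin N → MvPolynomial (Fin 3 × Fin N) K) (d : Fin m → Fin 3 → ℕ),
    (∀ x ∈ D, ∀ y ∈ D, φ x = φ y ↔ ∃ c : K, x = c • y) ∧
    (∀ j i (a b c : K) (x y z : Fin N → K), eval (triple (a • x) (b • y) (c • z)) (F j i) =
      a ^ d j 0 * b ^ d j 1 * c ^ d j 2 * eval (triple x y z) (F j i)) ∧
    (∀ x ∈ D, ∀ y ∈ D, ∀ z ∈ D, ∀ j, (fun i => eval (triple x y z) (F j i)) ≠ 0 →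
      (fun i => eval (triple x y z) (F j i)) ∈ D ∧
      φ (fun i => eval (triple x y z) (F j i)) = φ x * (φ y)⁻¹ * φ z) ∧
    (∀ x y z : Fin N → L, x ≠ 0 → y ≠ 0 → z ≠ 0 →
      x ∈ closure ((fun (v : Fin N → K) i => σ (v i)) '' D) →
      y ∈ closure ((fun (v : Fin N → K) i => σ (v i)) '' D) →
      z ∈ closure ((fun (v : Fin N → K) i => σ (v i)) '' D) →
      ∃ j, (fun i => eval₂ σ (triple x y z) (F j i)) ≠ 0)

/-- A block: a block of `CubicEquations` (the set of the common zeros of two polynomials of degree
at most two, or of the zeros of one polynomial of degree at most three, or of one polynomial as in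
`CubicEquations.TwoTwo` in some of the variables), or the set given by a condition of the kind
`GroupCone` on some of the variables. -/
def Block {K L : Type} [Field K] [NontriviallyNormedField L] (σ : K →+* L) {N : ℕ}
    (S : Set (Fin N → K)) : Prop :=
  CubicEquations.Block S ∨
  ∃ (n : ℕ) (e : Fin n → Fin N) (D : Set (Fin n → K)), Function.Injective e ∧
    GroupCone σ D ∧ S = {y | (fun i => y (e i)) ∈ D}

/-- The values of `(p₁/q, …, p_m/q)` at the points `x = (x₁, …, x_b)` with `x_j ∈ S_j` for all `j`
and `q(x) ≠ 0` whose image in `L^{b × N}` is in `Ω`. -/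
def values {K L : Type} [Field K] [Field L] (σ : K →+* L) {b N m : ℕ}
    (S : Fin b → Set (Fin N → K)) (Ω : Set (Fin b × Fin N → L))
    (p : Fin m → MvPolynomial (Fin b × Fin N) K) (q : MvPolynomial (Fin b × Fin N) K) :
    Set (Fin m → K) :=
  {t | ∃ x : Fin b × Fin N → K, (∀ j, (fun r => x (j, r)) ∈ S j) ∧
    (fun s => σ (x s)) ∈ Ω ∧ eval x q ≠ 0 ∧ ∀ k, t k = eval x (p k) / eval x q}

section aux

open Pool.Agent.J4H62.AV

variable {K L : Type} [Field K] [NontriviallyNormedField L] {σ : K →+* L}

open Classical in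
/-- the new blocks satisfy the hypotheses of the main theorem of the library -/
lemma exists_data {N : ℕ} {D : Set (Fin N → K)} (h : GroupCone σ D) :
    ∃ (t : (Fin N → K) → (Fin N → K) → (Fin N → K) → Fin N → K) (m : ℕ)
      (F : Fin m → Fin N → MvPolynomial (Fin 3 × Fin N) K) (d : Fin m → Fin 3 → ℕ),
      Data σ D t F d := by
  obtain ⟨hD, G, hG, φ, m, F, d, hφ, hhom, hval, hdef⟩ := h
  have hcl : ∀ x ∈ D, sv σ x ∈ closure ((fun (v : Fin N → K) i => σ (v i)) '' D) := fun x hx =>
    subset_closure ⟨x, hx, rfl⟩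
  have hex : ∀ x ∈ D, ∀ y ∈ D, ∀ z ∈ D, ∃ w ∈ D, φ w = φ x * (φ y)⁻¹ * φ z := by
    intro x hx y hy z hz
    obtain ⟨j, hj⟩ := hdef (sv σ x) (sv σ y) (sv σ z) (sv_ne (hD x hx).1) (sv_ne (hD y hy).1)
      (sv_ne (hD z hz).1) (hcl x hx) (hcl y hy) (hcl z hz)
    have hj' : (fun i => eval (triple x y z) (F j i)) ≠ 0 := by
      intro h0
      apply hj
      have h1 := sv_vF σ F j x y z
      have h2 : vF F j x y z = 0 := h0
      rw [h2] at h1
      change (fun i => eval₂ σ (tr (sv σ x) (sv σ y) (sv σ z)) (F j i)) = 0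
      rw [← h1]
      funext i
      simp [sv]
    exact ⟨_, hval x hx y hy z hz j hj'⟩
  choose! t ht1 ht2 using hex
  have hsame : ∀ u ∈ D, ∀ v ∈ D, φ u = φ v → Same u v := fun u hu v hv huv =>
    ⟨(hD u hu).1, (hD v hv).1, (hφ u hu v hv).1 huv⟩
  refine ⟨t, m, F, d, ⟨fun x hx => (hD x hx).1, fun c hc x hx => (hD x hx).2 c hc, hhom,
    ht1, ?_, ?_, ?_, ?_, ?_⟩⟩
  · intro x hx y hy z hz j hj
    obtain ⟨h1, h2⟩ := hval x hx y hy z hz j hj
    refine hsame _ h1 _ (ht1 x hx y hy z hz) ?_
    rw [ht2 x hx y hy z hz]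
    exact h2
  · intro x hx y hy z hz hx0 hy0 hz0
    exact hdef x y z hx0 hy0 hz0 hx hy hz
  · intro x hx z hz
    refine hsame _ (ht1 x hx x hx z hz) _ hz ?_
    rw [ht2 x hx x hx z hz, mul_inv_cancel, one_mul]
  · intro x hx z hz
    refine hsame _ (ht1 x hx z hz z hz) _ hx ?_
    rw [ht2 x hx z hz z hz, inv_mul_cancel_right]
  · intro x hx y hy z hz u hu v hv
    have h1 := ht1 x hx y hy z hz
    have h2 := ht1 z hz u hu v hv
    refine hsame _ (ht1 _ h1 u hu v hv) _ (ht1 x hx y hy _ h2) ?_
    rw [ht2 _ h1 u hu v hv, ht2 x hx y hy _ h2, ht2 x hx y hy z hz, ht2 z hz u hu v hv]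
    simp only [mul_assoc]

end aux

theorem result :
    -- number fields: finitely many isolated points in every completion
    (∀ (K : Type) [Field K] [NumberField K] (L : Type) [NontriviallyNormedField L]
      [CompleteSpace L] (σ : K →+* L), DenseRange σ →
      ∀ (a b N m : ℕ) (S : Fin a → Fin b → Set (Fin N → K)), (∀ i j, Block σ (S i j)) →
      ∀ (Ω : Fin a → Set (Fin b × Fin N → L)), (∀ i, IsOpen (Ω i)) →
      ∀ (p : Fin a → Fin m → MvPolynomial (Fin b × Fin N) K)
        (q : Fin a → MvPolynomial (Fin b × Fin N) K) (D : Set (Fin m → K)),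
        D = ⋃ i, values σ (S i) (Ω i) (p i) (q i) →
        {t ∈ D | ∃ U ∈ nhds (fun k => σ (t k)), ∀ s ∈ D, (fun k => σ (s k)) ∈ U →
          s = t}.Finite) ∧
    -- the rational numbers: sets of integers of this kind are finite
    (∀ (a b N : ℕ) (S : Fin a → Fin b → Set (Fin N → ℚ)),
      (∀ i j, Block (algebraMap ℚ ℝ) (S i j)) →
      ∀ (Ω : Fin a → Set (Fin b × Fin N → ℝ)), (∀ i, IsOpen (Ω i)) →
      ∀ (p q : Fin a → MvPolynomial (Fin b × Fin N) ℚ) (D : Set ℚ),
        D = {t | ∃ i, ∃ x : Fin b × Fin N → ℚ, (∀ j, (fun r => x (j, r)) ∈ S i j) ∧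
          (fun s => ((x s : ℚ) : ℝ)) ∈ Ω i ∧ eval x (q i) ≠ 0 ∧
          t = eval x (p i) / eval x (q i)} →
        D ⊆ Set.range ((↑) : ℤ → ℚ) → D.Finite) ∧
    -- in particular, a rational function does not map the points of one coset onto the integers
    (∀ (N : ℕ) (D : Set (Fin N → ℚ)), GroupCone (algebraMap ℚ ℝ) D →
      ∀ p q : MvPolynomial (Fin N) ℚ,
      {z : ℚ | ∃ y ∈ D, eval y q ≠ 0 ∧ z = eval y p / eval y q} ≠
        Set.range ((↑) : ℤ → ℚ)) := by
  have h1 : ∀ (K : Type) [Field K] [NumberField K] (L : Type) [NontriviallyNormedField L]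
      [CompleteSpace L] (σ : K →+* L), DenseRange σ →
      ∀ (a b N m : ℕ) (S : Fin a → Fin b → Set (Fin N → K)), (∀ i j, Block σ (S i j)) →
      ∀ (Ω : Fin a → Set (Fin b × Fin N → L)), (∀ i, IsOpen (Ω i)) →
      ∀ (p : Fin a → Fin m → MvPolynomial (Fin b × Fin N) K)
        (q : Fin a → MvPolynomial (Fin b × Fin N) K) (D : Set (Fin m → K)),
        D = ⋃ i, values σ (S i) (Ω i) (p i) (q i) →
        {t ∈ D | ∃ U ∈ nhds (fun k => σ (t k)), ∀ s ∈ D, (fun k => σ (s k)) ∈ U →
          s = t}.Finite := by
    intro K _ _ L _ _ σ hσ a b N m S hS Ω hΩ p q D hD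
    have : CharZero L := charZero_of_injective_ringHom σ.injective
    have : ProperSpace L := Pool.Agent.W279.Tri.properSpace_of_denseRange σ hσ
    subst hD
    refine Pool.Agent.TH729.CV.isolated_union (fun (t : Fin m → K) k => σ (t k)) _ fun i => ?_
    have hFA : ∀ j, Pool.Agent.TH729.CV.FA σ (S i j) := by
      intro j
      rcases hS i j with (⟨f, g, hfg, hS'⟩ | ⟨n, e, S₀, he, ⟨hn, A, B, C, hA, hB, hC, hind,
        hdet, hS₀⟩, hS'⟩) | ⟨n, e, S₀, he, hS₀, hS'⟩
      · rw [hS']
        exact Pool.Agent.TH729.CV.FA.block σ hσ hfg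
      · rw [hS']
        refine Pool.Agent.TH729.CV.FA.cyl hσ ?_ he
        obtain ⟨𝓑, h𝓑, hbad⟩ := Pool.Agent.TH729.BQ.matFam_bad hA hB hC hdet
        have h3 := Pool.Agent.TH729.BQ.FA_V σ hσ
          (F := Pool.Agent.TH729.BQ.matFam A B C hA hB hC)
          (Pool.Agent.TH729.BQ.matFam_ind hA hB hC hind) hn h𝓑 hbad
        have h4 : (Pool.Agent.TH729.BQ.matFam A B C hA hB hC).V = S₀ := by
          rw [hS₀]
          ext y
          show (_ = _) ↔ _ = _
          rw [Pool.Agent.TH729.BQ.matFam_val]
          simp only [Matrix.cons_val_zero, Matrix.cons_val_one, Matrix.cons_val_fin_one, mul_one,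
            one_pow, one_smul]
        rwa [h4] at h3
      · rw [hS']
        refine Pool.Agent.TH729.CV.FA.cyl hσ ?_ he
        obtain ⟨t, m', F, d, hdata⟩ := exists_data hS₀
        exact Pool.Agent.J4H62.AV.FA_of_data hdata hσ
    have h2 := Pool.Agent.TH729.CV.FA.prod (σ := σ) (D := fun j => S i j) hFA
    exact Pool.Agent.TH729.CV.vals_isolated h2 (hΩ i) (p i) (q i)
  have h2 : ∀ (a b N : ℕ) (S : Fin a → Fin b → Set (Fin N → ℚ)),
      (∀ i j, Block (algebraMap ℚ ℝ) (S i j)) →
      ∀ (Ω : Fin a → Set (Fin b × Fin N → ℝ)), (∀ i, IsOpen (Ω i)) →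
      ∀ (p q : Fin a → MvPolynomial (Fin b × Fin N) ℚ) (D : Set ℚ),
        D = {t | ∃ i, ∃ x : Fin b × Fin N → ℚ, (∀ j, (fun r => x (j, r)) ∈ S i j) ∧
          (fun s => ((x s : ℚ) : ℝ)) ∈ Ω i ∧ eval x (q i) ≠ 0 ∧
          t = eval x (p i) / eval x (q i)} →
        D ⊆ Set.range ((↑) : ℤ → ℚ) → D.Finite := by
    intro a b N S hS Ω hΩ p q D hD hDZ
    have h3 := h1 ℚ ℝ (algebraMap ℚ ℝ) Rat.denseRange_cast a b N 1 S hS Ω hΩ
      (fun i _ => p i) q _ rfl
    have hval : ∀ t : Fin 1 → ℚ, t ∈ (⋃ i, values (algebraMap ℚ ℝ) (S i) (Ω i)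
        (fun _ : Fin 1 => p i) (q i)) ↔ t 0 ∈ D := by
      intro t
      rw [hD, Set.mem_iUnion]
      constructor
      · rintro ⟨i, x, hx1, hx2, hx3, hx4⟩
        exact ⟨i, x, hx1, hx2, hx3, hx4 0⟩
      · rintro ⟨i, x, hx1, hx2, hx3, hx4⟩
        refine ⟨i, x, hx1, hx2, hx3, fun k => ?_⟩
        rw [Subsingleton.elim k 0]
        exact hx4
    have h4 : D ⊆ (fun t : Fin 1 → ℚ => t 0) '' {t ∈ (⋃ i, values (algebraMap ℚ ℝ) (S i)
        (Ω i) (fun _ : Fin 1 => p i) (q i)) | ∃ U ∈ nhds (fun k => algebraMap ℚ ℝ (t k)),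
          ∀ s ∈ (⋃ i, values (algebraMap ℚ ℝ) (S i) (Ω i) (fun _ : Fin 1 => p i) (q i)),
            (fun k => algebraMap ℚ ℝ (s k)) ∈ U → s = t} := by
      intro t ht
      refine ⟨fun _ => t, ⟨(hval _).2 ht, {z | z 0 ∈ Metric.ball ((t : ℚ) : ℝ) 1}, ?_, ?_⟩, rfl⟩
      · exact (continuous_apply (0 : Fin 1)).continuousAt.preimage_mem_nhds
          (Metric.ball_mem_nhds _ one_pos)
      · intro s hs hsU
        have hs' := (hval s).1 hs
        obtain ⟨u, hu⟩ := hDZ ht
        obtain ⟨v, hv⟩ := hDZ hs'
        have h5 : (algebraMap ℚ ℝ (s 0)) ∈ Metric.ball ((t : ℚ) : ℝ) 1 := hsU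
        rw [← hv, ← hu] at h5
        simp only [Metric.mem_ball, map_intCast, Rat.cast_intCast, Real.dist_eq] at h5
        have h6 : |v - u| < 1 := by exact_mod_cast h5
        have h7 : v - u = 0 := Int.abs_lt_one_iff.1 h6
        have h8 : v = u := by omega
        funext k
        rw [Subsingleton.elim k 0, ← hv, ← hu, h8]
    exact (h3.image _).subset h4
  refine ⟨h1, h2, fun N D hD p q heq => ?_⟩
  have h4 := h2 1 1 N (fun _ _ => D) (fun _ _ => Or.inr ⟨N, id, D, Function.injective_id, hD, rfl⟩)
    (fun _ => Set.univ) (fun _ => isOpen_univ) (fun _ => rename (fun i => (0, i)) p)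
    (fun _ => rename (fun i => (0, i)) q) (Set.range ((↑) : ℤ → ℚ)) ?_ subset_rfl
  · exact (Set.infinite_range_of_injective Int.cast_injective) h4
  · rw [← heq]
    ext t
    constructor
    · rintro ⟨y, hy1, hy2, hy3⟩
      refine ⟨0, fun s => y s.2, fun _ => hy1, Set.mem_univ _, ?_, ?_⟩
      · rw [eval_rename]
        exact hy2
      · rw [eval_rename, eval_rename]
        exact hy3
    · rintro ⟨-, x, hx1, -, hx3, hx4⟩
      rw [eval_rename] at hx3 hx4
      rw [eval_rename] at hx4
      exact ⟨fun r => x (0, r), hx1 0, hx3, hx4⟩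

end Pool.Agent.Results.MP_28f2cb_lc.AbelianVarieties
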