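import Pool.Agent.Results.MP_28f2cb_lc.SeveralParameters
import Pool.Agent.Results.MP_28f2cb_lc.CalabiYauDoubleCovers
import Pool.Agent.Results.MP_42de19_nt.PowerClasses

/-!
# The integers are not defined by families of power covers and elliptic curves

We consider three kinds of varieties over `ℚ`, in every dimension, with all their rational points:

(a) the affine varieties `A_{l 0}(x) + ∑_j A_{l j}(x) u_{l j} ^ {s_l} = 0`, `l = 1, …, k`, where
`s_l = 2`, or there is at most one `j`, for example the varieties
`w_l ^ {s_l} = A_{l 1}(x_1) ⋯ A_{l n}(x_n)`;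

(b) the families `y² = z³ + B(x)` of elliptic curves, and (c) the families `y² = z³ + B(x) z`.

The coefficients are products of functions `A_i(x_i)` of the single variables, each of them
generated by a *system* for the variable `x_i` with the exponent `s_l`, or six in (b), or four in
(c). The systems consist of one or several pairs of an exponent `2`, `3`, `4`, `6` (or arbitrary,
with two zeros) and a polynomial, such that the corresponding cyclic covers of the line are curves
of genus at most one; see `System` and `Generated` in the hand-in `PowerClasses` of the problem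
MP_42de19_nt. The power-free parts of the functions `A_i` are arbitrary products of the polynomials
of the system, the other factors are arbitrary.

A *block* is the set of the points whose coordinates in some variables form a rational point of such
a variety, or one of the blocks of the hand-ins `CubicEquations`, `SeveralParameters` and
`CalabiYauDoubleCovers`. Take the values of arbitrary rational functions at the rational points of a
product of blocks, restricted to an arbitrary open subset of the real space, and take finite unions
of such sets. A set of this kind has only finitely many isolated points. In particular, a set of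
integers of this kind is finite.

The proof uses that the closures of the sets of the rational points are semialgebraic over `ℚ`
(theorem `PowerClasses` of the problem MP_42de19_nt).
-/

set_option autoImplicit false

namespace Pool.Agent.Results.MP_28f2cb_lc.PowerClassFamilies

open MvPolynomial Pool.Agent.TH729.SQ Pool.Agent.Y718 Pool.Agent.Y718.SupL Pool.Agent.H581R2
  Pool.Agent.J4H71.PC
open Pool.Agent.Results.MP_42de19_nt.PowerClasses (System Generated variety system_lgs)

/-- The set of the rational points of one of the varieties (a), (b), (c). -/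
inductive Family : {ι : Type} → Set (ι → ℚ) → Prop
  | power {n k : ℕ} {m : Fin k → ℕ} (s : Fin k → ℕ) (S : Fin n → Set (ℕ × Polynomial ℚ))
      (A : ∀ l : Fin k, Option (Fin (m l)) → Fin n → Polynomial ℚ)
      (hs : ∀ l, s l ≠ 0) (hm : ∀ l, s l = 2 ∨ m l ≤ 1) (hS : ∀ i, System (S i))
      (hA : ∀ l j i, Generated (S i) (s l) (A l j i)) : Family (variety s A)
  | six {n : ℕ} (S : Fin n → Set (ℕ × Polynomial ℚ)) (A : Fin n → Polynomial ℚ)
      (hS : ∀ i, System (S i)) (hA : ∀ i, Generated (S i) 6 (A i)) :
      Family {v : (Fin n ⊕ Fin 2) → ℚ |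
        v (Sum.inr 1) ^ 2 = v (Sum.inr 0) ^ 3 + ∏ i, (A i).eval (v (Sum.inl i))}
  | four {n : ℕ} (S : Fin n → Set (ℕ × Polynomial ℚ)) (A : Fin n → Polynomial ℚ)
      (hS : ∀ i, System (S i)) (hA : ∀ i, Generated (S i) 4 (A i)) :
      Family {v : (Fin n ⊕ Fin 2) → ℚ |
        v (Sum.inr 1) ^ 2 = v (Sum.inr 0) ^ 3 +
          (∏ i, (A i).eval (v (Sum.inl i))) * v (Sum.inr 0)}

/-- The blocks. -/
def Block {N : ℕ} (S : Set (Fin N → ℚ)) : Prop :=
  SeveralParameters.Block S ∨ CalabiYauDoubleCovers.Block S ∨
  ∃ (ι : Type) (_ : Finite ι) (c : ι → Fin N) (S₀ : Set (ι → ℚ)), Function.Injective c ∧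
    Family S₀ ∧ S = {y | (fun s => y (c s)) ∈ S₀}

lemma Family.sa {ι : Type} {S : Set (ι → ℚ)} (h : Family S) : SA (closure (rl S)) := by
  induction h with
  | power s S A hs hm hS hA =>
    exact Var_SA hs hm A fun i => (system_lgs (hS i)).over fun r => hA r.1 r.2 i
  | six S A hS hA => exact ell6_SA (fun i => system_lgs (hS i)) hA
  | four S A hS hA => exact ell4_SA (fun i => system_lgs (hS i)) hA

lemma Block.sa {N : ℕ} {S : Set (Fin N → ℚ)} (h : Block S) : SA (closure (rl S)) := by
  rcases h with h | h | ⟨ι, _, c, S₀, hc, h, rfl⟩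
  · exact SeveralParameters.Block.sa h
  · exact CalabiYauDoubleCovers.Block.sa h
  · exact cyl_rl h.sa hc

open CubicEquations (values)

/-- **Power classes and the definability of the integers.** -/
theorem result :
    -- (1) finitely many isolated points
    (∀ (a b N m : ℕ) (S : Fin a → Fin b → Set (Fin N → ℚ)), (∀ i j, Block (S i j)) →
      ∀ (Ω : Fin a → Set (Fin b × Fin N → ℝ)), (∀ i, IsOpen (Ω i)) →
      ∀ (p : Fin a → Fin m → MvPolynomial (Fin b × Fin N) ℚ)
        (q : Fin a → MvPolynomial (Fin b × Fin N) ℚ) (D : Set (Fin m → ℚ)),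
        D = ⋃ i, values (algebraMap ℚ ℝ) (S i) (Ω i) (p i) (q i) →
        {t ∈ D | ∃ U ∈ nhds (fun k => (t k : ℝ)), ∀ s ∈ D, (fun k => (s k : ℝ)) ∈ U →
          s = t}.Finite) ∧
    -- (2) sets of integers of this kind are finite
    (∀ (a b N : ℕ) (S : Fin a → Fin b → Set (Fin N → ℚ)), (∀ i j, Block (S i j)) →
      ∀ (Ω : Fin a → Set (Fin b × Fin N → ℝ)), (∀ i, IsOpen (Ω i)) →
      ∀ (p q : Fin a → MvPolynomial (Fin b × Fin N) ℚ) (D : Set ℚ),
        D = {t | ∃ i, ∃ x : Fin b × Fin N → ℚ, (∀ j, (fun r => x (j, r)) ∈ S i j) ∧
          (fun s => ((x s : ℚ) : ℝ)) ∈ Ω i ∧ eval x (q i) ≠ 0 ∧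
          t = eval x (p i) / eval x (q i)} →
        D ⊆ Set.range ((↑) : ℤ → ℚ) → D.Finite) ∧
    -- (3) in particular, the set of the values of a rational function at all rational points of
    -- one of these varieties is not the set of the integers
    (∀ (ι : Type) [Finite ι] (S : Set (ι → ℚ)), Family S → ∀ p q : MvPolynomial ι ℚ,
        {t : ℚ | ∃ w ∈ S, eval w q ≠ 0 ∧ t = eval w p / eval w q} ≠
          Set.range ((↑) : ℤ → ℚ)) := by
  refine ⟨?_, ?_, ?_⟩
  · intro a b N m S hS Ω hΩ p q D hD
    exact IsoR.iso_union (fun i j => (hS i j).sa) hΩ p q hD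
  · intro a b N S hS Ω hΩ p q D hD hDZ
    exact IsoR.ints (fun i j => (hS i j).sa) hΩ p q hD hDZ
  · intro ι _ S hS p q
    have := Fintype.ofFinite ι
    set E := Fintype.equivFin ι with hE
    have h2 := cyl_rl hS.sa E.injective
    have h3 := IsoR.one h2 (rename E p) (rename E q)
    intro h4
    apply h3
    rw [← h4]
    ext t
    simp only [Set.mem_setOf_eq, eval_rename]
    constructor
    · rintro ⟨y, hy, hq, ht⟩
      exact ⟨fun s => y (E s), hy, hq, ht⟩
    · rintro ⟨w, hw, hq, ht⟩
      have e : (fun s => (fun r => w (E.symm r)) (E s)) = w := by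
        funext s
        simp
      refine ⟨fun r => w (E.symm r), ?_, ?_, ?_⟩
      · change (fun s => (fun r => w (E.symm r)) (E s)) ∈ S
        rw [e]
        exact hw
      · change eval (fun s => (fun r => w (E.symm r)) (E s)) q ≠ 0
        rw [e]
        exact hq
      · change t = eval (fun s => (fun r => w (E.symm r)) (E s)) p /
          eval (fun s => (fun r => w (E.symm r)) (E s)) q
        rw [e]
        exact ht

end Pool.Agent.Results.MP_28f2cb_lc.PowerClassFamilies
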