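import Pool.Agent.J4H62.DQ.Cls

/-!
# The integers are existentially definable from every set of integers which is not too sparse
-/

set_option autoImplicit false

namespace Pool.Agent.Results.MP_28f2cb_lc.SparseSets

open MvPolynomial

/-- At least `N exp (-A (1 + log N)^δ)` of the `N` integers `n` with `a < n ≤ a + N` satisfy
`f(n) ∈ T`. -/
def Many (f : Polynomial ℤ) (A δ : ℝ) (T : Set ℚ) (a : ℤ) (N : ℕ) : Prop :=
  (N : ℝ) * Real.exp (-(A * (1 + Real.log N) ^ δ)) ≤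
    Set.ncard {n : ℤ | a < n ∧ n ≤ a + N ∧ Polynomial.aeval (n : ℚ) f ∈ T}

/-- The denominators of the elements of `T` are at most `D`, and for every `N ≥ 1` there is an
interval of `N` consecutive integers many elements `n` of which satisfy `f(n) ∈ T`. -/
def Sparse (f : Polynomial ℤ) (A δ : ℝ) (D : ℕ) (T : Set ℚ) : Prop :=
  (∀ t ∈ T, t.den ≤ D) ∧ ∀ N : ℕ, 1 ≤ N → ∃ a : ℤ, Many f A δ T a N

/-- There are one polynomial `F` with integer coefficients and one finite set `S` of variables such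
that for EVERY set `T` in the class `𝒯` the rational numbers `x` with the property `P` are those for
which `F(x, y₁, …, yₙ) = 0` has a rational solution with the variables of `S` in `T`. -/
def Definable (𝒯 : Set ℚ → Prop) (P : ℚ → Prop) : Prop :=
  ∃ (n : ℕ) (F : MvPolynomial (Fin (n + 1)) ℤ) (S : Finset (Fin (n + 1))),
    ∀ T : Set ℚ, 𝒯 T → ∀ x : ℚ, P x ↔ ∃ y : Fin (n + 1) → ℚ, y 0 = x ∧
      aeval y F = 0 ∧ ∀ i ∈ S, y i ∈ T

/-- The rational numbers `x` for which `Q(x, y₁, …, yₘ) = 0` has a rational solution. -/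
def Sol {m : ℕ} (Q : MvPolynomial (Fin (m + 1)) ℤ) : Set ℚ :=
  {x | ∃ y : Fin m → ℚ, aeval (Fin.cons x y : Fin (m + 1) → ℚ) Q = 0}

/-- Let `f` be a nonconstant polynomial with integer coefficients, `A ≥ 0`, `0 ≤ δ < 1 / 2` and
`D` a natural number. The integers and all recursively enumerable sets of natural numbers are
existentially definable from every set `T` in the class `Sparse f A δ D`, uniformly in `T`. If some
set in this class is existentially definable over `ℚ`, then so is the set of integers. -/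
theorem result (f : Polynomial ℤ) (hf : 1 ≤ f.natDegree) (A δ : ℝ) (hA : 0 ≤ A) (hδ0 : 0 ≤ δ)
    (hδ : δ < 1 / 2) (D : ℕ) :
    Definable (Sparse f A δ D) (fun x => ∃ z : ℤ, x = z) ∧
    (∀ W : ℕ → Prop, REPred W → Definable (Sparse f A δ D) (fun x => ∃ a : ℕ, x = a ∧ W a)) ∧
    ∀ (m : ℕ) (Q : MvPolynomial (Fin (m + 1)) ℤ), Sparse f A δ D (Sol Q) →
      ∃ (n : ℕ) (P : MvPolynomial (Fin (n + 1)) ℤ), ∀ q : ℚ, (∃ z : ℤ, (z : ℚ) = q) ↔
        ∃ y : Fin n → ℚ, aeval (Fin.cons q y : Fin (n + 1) → ℚ) P = 0 := by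
  obtain ⟨A₁, hA₁, w1⟩ := Pool.Agent.J4H62.DQ.wt_cl1 hf hA hδ0 hδ D
  obtain ⟨i1, r1⟩ := Pool.Agent.J4H62.DQ.wt_main hA₁ hδ0 hδ w1
  refine ⟨Pool.Agent.TH255.QI.DT.final (Q := fun x => ∃ z : ℤ, x = z) i1, fun W hW =>
    Pool.Agent.TH255.QI.DT.final (Q := fun x => ∃ a : ℕ, x = a ∧ W a) (r1 W hW), ?_⟩
  intro m Q hQ
  have hmem : Pool.Agent.TH255.QI.DT (fun T : Set ℚ => T = Set.univ)
      (fun _ v => v 0 ∈ Sol Q) := Pool.Agent.J4H62.DQ.dt_sol Q
  have hfin := Pool.Agent.J4H62.DQ.DT.elim hQ hmem i1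
  obtain ⟨n, P, S, hP⟩ := Pool.Agent.TH255.QI.DT.final (Q := fun x => ∃ z : ℤ, x = z) hfin
  refine ⟨n, P, fun q => ?_⟩
  have h1 := hP Set.univ rfl q
  constructor
  · rintro ⟨z, hz⟩
    obtain ⟨y, hy0, hy, -⟩ := h1.mp ⟨z, hz.symm⟩
    refine ⟨Fin.tail y, ?_⟩
    rw [← hy0, Fin.cons_self_tail]
    exact hy
  · rintro ⟨y, hy⟩
    obtain ⟨z, hz⟩ := h1.mpr ⟨Fin.cons q y, rfl, hy, fun _ _ => Set.mem_univ _⟩
    exact ⟨z, hz.symm⟩

end Pool.Agent.Results.MP_28f2cb_lc.SparseSets
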