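import Pool.Agent.Results.MP_28f2cb_lc.SeveralParameters
import Pool.Agent.Results.MP_28f2cb_lc.CalabiYauDoubleCovers
import Pool.Agent.Results.MP_42de19_nt.SquareClasses

/-!
# The integers are not defined by square classes and families of diagonal quadrics

We consider the sets of rational points `(z, u)` of the following kind. The points `z_i` run
through finitely many *admissible* blocks `N_i`, with finitely many polynomials `h_{i r}` in the
coordinates of `z_i`; the tuple of the values `h_{i r}(z_i)` belongs to an arbitrary union `T` of
square classes of tuples (so arbitrary conditions on the square classes of these values are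
allowed, also negative ones, such as that a value is not a square, or infinite disjunctions); and
`(z, u)` satisfies finitely many equations

  `∑_j a_{l j} ∏_{i, r} h_{i r}(z_i) ^ {e_{l j i r}} u_{l j}² = 0`.

See `Admissible` in the hand-in `SquareClasses` of the problem MP_42de19_nt for the definition. The
following are admissible (parts (3), (4), (5) of the theorem):
* the line `ℚ` with finitely many polynomials in one variable whose zeros of odd multiplicity are
  zeros of one separable polynomial `F` of degree at most three (or of degree four, if the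
  polynomials are of even degree up to squares);
* `ℚ^m` without the zeros of `h_r`, if `∏ h_r` has degree at most two in each variable;
* one polynomial `f` of degree at most four in each variable, and its nondegenerate points in the
  sense of the hand-in `SeveralParameters`, with `f ≠ 0`.
For the lines, *all* rational points of the families are allowed: for example all rational points of
the varieties `A_{l 0}(x) + ∑_j A_{l j}(x) u_{l j}² = 0`, `l = 1, …, k`, where the coefficients are
products of polynomials in the single variables `x_i` as above (such as Kummer surfaces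
`w² = f(x) g(y)` with `deg f, deg g ≤ 4`, and their analogues in all dimensions). The hand-ins
`SeveralParameters` and `CalabiYauDoubleCovers` consider only one equation `w² = f(z)` and only its
nondegenerate points.

A *block* is the set of the points whose coordinates in some variables form a point of a set of this
kind, or one of the blocks of the hand-ins `CubicEquations`, `SeveralParameters` and
`CalabiYauDoubleCovers`. Take the values of arbitrary rational functions at the rational points of a
product of blocks, restricted to an arbitrary open subset of the real space, and take finite unions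
of such sets. A set of this kind has only finitely many isolated points. In particular, a set of
integers of this kind is finite.

The proof uses that the closures of these sets of rational points are semialgebraic over `ℚ`
(theorem `SquareClasses` of the problem MP_42de19_nt).
-/

set_option autoImplicit false

namespace Pool.Agent.Results.MP_28f2cb_lc.SquareClassFamilies

open MvPolynomial Pool.Agent.TH729.SQ Pool.Agent.Y718 Pool.Agent.Y718.SupL Pool.Agent.H581R2
  Pool.Agent.J4H71.SC
open Pool.Agent.Results.MP_42de19_nt.SquareClasses (SameClass Admissible points Branch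
  inOneVariable bundle Nondegenerate)

/-- The set of the points whose coordinates `c` form a point `(z, u)` of a family over admissible
blocks, with conditions on square classes and diagonal quadratic equations for `u`. -/
def Family {N : ℕ} (S : Set (Fin N → ℚ)) : Prop :=
  ∃ (ι Λ : Type) (_ : Fintype ι) (_ : Fintype Λ) (κ R : ι → Type) (μ : Λ → Type)
    (_ : ∀ i, Fintype (κ i)) (_ : ∀ i, Fintype (R i)) (_ : ∀ l, Fintype (μ l))
    (h : ∀ i, R i → MvPolynomial (κ i) ℚ) (M : ∀ i, Set (κ i → ℚ)) (T : Set (∀ i, R i → ℚ))
    (a : ∀ l, μ l → ℚ) (e : ∀ l, μ l → ∀ i, R i → ℕ)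
    (c : (Σ i, κ i) ⊕ (Σ l, μ l) → Fin N),
    (∀ i, Admissible (h i) (M i)) ∧
    (∀ g ∈ T, ∀ g', (∀ i r, SameClass (g i r) (g' i r)) → g' ∈ T) ∧
    Function.Injective c ∧ S = {y | (fun s => y (c s)) ∈ points h M T a e}

/-- The blocks. -/
def Block {N : ℕ} (S : Set (Fin N → ℚ)) : Prop :=
  SeveralParameters.Block S ∨ CalabiYauDoubleCovers.Block S ∨ Family S

lemma Family.sa {N : ℕ} {S : Set (Fin N → ℚ)} (h : Family S) : SA (closure (rl S)) := by
  obtain ⟨ι, Λ, _, _, κ, R, μ, _, _, _, h, M, T, a, e, c, hM, hT, hc, rfl⟩ := h
  exact cyl_rl (Tot_SA (fun i => (MP_42de19_nt.SquareClasses.admissible_iff _ _).1 (hM i))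
    hT a e) hc

lemma Block.sa {N : ℕ} {S : Set (Fin N → ℚ)} (h : Block S) : SA (closure (rl S)) := by
  rcases h with h | h | h
  · exact SeveralParameters.Block.sa h
  · exact CalabiYauDoubleCovers.Block.sa h
  · exact h.sa

open CubicEquations (values)

/-- **Square classes and the definability of the integers.** -/
theorem result :
    -- (1) finitely many isolated points
    (∀ (a b N m : ℕ) (S : Fin a → Fin b → Set (Fin N → ℚ)), (∀ i j, Block (S i j)) →
      ∀ (Ω : Fin a → Set (Fin b × Fin N → ℝ)), (∀ i, IsOpen (Ω i)) →
      ∀ (p : Fin a → Fin m → MvPolynomial (Fin b × Fin N) ℚ)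
        (q : Fin a → MvPolynomial (Fin b × Fin N) ℚ) (D : Set (Fin m → ℚ)),
        D = ⋃ i, values (algebraMap ℚ ℝ) (S i) (Ω i) (p i) (q i) →
        {t ∈ D | ∃ U ∈ nhds (fun k => (t k : ℝ)), ∀ s ∈ D, (fun k => (s k : ℝ)) ∈ U →
          s = t}.Finite) ∧
    -- (2) sets of integers of this kind are finite
    (∀ (a b N : ℕ) (S : Fin a → Fin b → Set (Fin N → ℚ)), (∀ i j, Block (S i j)) →
      ∀ (Ω : Fin a → Set (Fin b × Fin N → ℝ)), (∀ i, IsOpen (Ω i)) →
      ∀ (p q : Fin a → MvPolynomial (Fin b × Fin N) ℚ) (D : Set ℚ),
        D = {t | ∃ i, ∃ x : Fin b × Fin N → ℚ, (∀ j, (fun r => x (j, r)) ∈ S i j) ∧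
          (fun s => ((x s : ℚ) : ℝ)) ∈ Ω i ∧ eval x (q i) ≠ 0 ∧
          t = eval x (p i) / eval x (q i)} →
        D ⊆ Set.range ((↑) : ℤ → ℚ) → D.Finite) ∧
    -- (3) lines with at most four branch points are admissible
    (∀ (R : Type) [Finite R] (F : Polynomial ℚ) (p : R → Polynomial ℚ), F.Separable →
      F.natDegree ≤ 4 → (∀ r, Branch F (p r)) →
      Admissible (fun r => inOneVariable (p r)) Set.univ) ∧
    -- (4) a product of degree at most two in each variable
    (∀ (R : Type) [Fintype R] (m : ℕ) (h : R → MvPolynomial (Fin m) ℚ),
      (∀ i, (∏ r, h r).degreeOf i ≤ 2) → Admissible h {z | ∀ r, eval z (h r) ≠ 0}) ∧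
    -- (5) one polynomial of degree at most four in each variable, nondegenerate points
    (∀ (m : ℕ) (f : MvPolynomial (Fin m) ℚ), (∀ i, f.degreeOf i ≤ 4) →
      Admissible (fun _ : Unit => f) {z | (∀ i, Nondegenerate f i z) ∧ eval z f ≠ 0}) ∧
    -- (6) in particular, the set of the values of a rational function at all rational points of a
    -- diagonal quadric bundle over a product of lines is not the set of the integers
    (∀ (n k : ℕ) (m : Fin k → ℕ) (F : Fin n → Polynomial ℚ)
      (A : ∀ l : Fin k, Option (Fin (m l)) → Fin n → Polynomial ℚ),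
      (∀ i, (F i).Separable ∧ (F i).natDegree ≤ 4) → (∀ l j i, Branch (F i) (A l j i)) →
      ∀ p q : MvPolynomial (Fin n ⊕ Σ l, Fin (m l)) ℚ,
        {t : ℚ | ∃ w ∈ bundle A, eval w q ≠ 0 ∧ t = eval w p / eval w q} ≠
          Set.range ((↑) : ℤ → ℚ)) := by
  refine ⟨?_, ?_, MP_42de19_nt.SquareClasses.result.2.1, MP_42de19_nt.SquareClasses.result.2.2.1,
    MP_42de19_nt.SquareClasses.result.2.2.2.1, ?_⟩
  · intro a b N m S hS Ω hΩ p q D hD
    exact IsoR.iso_union (fun i j => (hS i j).sa) hΩ p q hD
  · intro a b N S hS Ω hΩ p q D hD hDZ
    exact IsoR.ints (fun i j => (hS i j).sa) hΩ p q hD hDZ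
  · intro n k m F A hF hA p q
    have h1 : SA (closure (rl (bundle A))) :=
      Aff_SA (fun i => (hF i).1) (fun i => (hF i).2) A hA
    set E := Fintype.equivFin (Fin n ⊕ Σ l, Fin (m l)) with hE
    have h2 := cyl_rl h1 E.injective
    have h3 := IsoR.one h2 (rename E p) (rename E q)
    intro h4
    apply h3
    rw [← h4]
    ext t
    simp only [Set.mem_setOf_eq, eval_rename]
    constructor
    · rintro ⟨y, hy, hq, ht⟩
      exact ⟨fun s => y (E s), hy, hq, ht⟩
    · rintro ⟨w, hw, hq, ht⟩
      have e : (fun s => (fun r => w (E.symm r)) (E s)) = w := by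
        funext s
        simp
      refine ⟨fun r => w (E.symm r), ?_, ?_, ?_⟩
      · change (fun s => (fun r => w (E.symm r)) (E s)) ∈ bundle A
        rw [e]
        exact hw
      · change eval (fun s => (fun r => w (E.symm r)) (E s)) q ≠ 0
        rw [e]
        exact hq
      · change t = eval (fun s => (fun r => w (E.symm r)) (E s)) p /
          eval (fun s => (fun r => w (E.symm r)) (E s)) q
        rw [e]
        exact ht

end Pool.Agent.Results.MP_28f2cb_lc.SquareClassFamilies
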